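import Mathlib
import Pool.Agent.X184.SS.Stm

set_option autoImplicit false

namespace Pool.Agent.X181.SS

open Finset Pool.Agent.X184.SS

theorem empty_mem (n : ℕ) : (∅ : Finset ℕ) ∈ Sch n := by
  cases n with
  | zero => simp [Sch]
  | succ n =>
    refine ⟨0, Fin.elim0, fun i => i.elim0, fun i => i.elim0, ?_, ?_⟩
    · simp
    · simp

theorem sum_le (F : Finset ℕ) (x : ℕ →₀ ℝ) : ∑ j ∈ F, |x j| ≤ ∑ j ∈ x.support, |x j| := by
  have h1 : ∑ j ∈ F, |x j| = ∑ j ∈ F ∩ x.support, |x j| := by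
    symm
    refine Finset.sum_subset Finset.inter_subset_left ?_
    intro j hj hj'
    have : x j = 0 := by
      by_contra h
      exact hj' (Finset.mem_inter.2 ⟨hj, Finsupp.mem_support_iff.2 h⟩)
    simp [this]
  rw [h1]
  exact Finset.sum_le_sum_of_subset_of_nonneg Finset.inter_subset_right
    (fun _ _ _ => abs_nonneg _)

theorem bdd (n : ℕ) (x : ℕ →₀ ℝ) :
    BddAbove (Set.range (fun F : {F : Finset ℕ // F ∈ Sch n} => ∑ j ∈ F.1, |x j|)) := by
  refine ⟨∑ j ∈ x.support, |x j|, ?_⟩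
  rintro _ ⟨F, rfl⟩
  exact sum_le F.1 x

instance nonemp (n : ℕ) : Nonempty {F : Finset ℕ // F ∈ Sch n} := ⟨⟨∅, empty_mem n⟩⟩

theorem schNorm_nonneg (n : ℕ) (x : ℕ →₀ ℝ) : 0 ≤ schNorm n x :=
  Real.iSup_nonneg (fun _ => Finset.sum_nonneg (fun _ _ => abs_nonneg _))

theorem le_schNorm (n : ℕ) (x : ℕ →₀ ℝ) (F : Finset ℕ) (hF : F ∈ Sch n) :
    ∑ j ∈ F, |x j| ≤ schNorm n x :=
  le_ciSup (bdd n x) (⟨F, hF⟩ : {F : Finset ℕ // F ∈ Sch n})

theorem schNorm_le (n : ℕ) (x : ℕ →₀ ℝ) (C : ℝ) (h : ∀ F ∈ Sch n, ∑ j ∈ F, |x j| ≤ C) :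
    schNorm n x ≤ C :=
  ciSup_le (fun F => h F.1 F.2)

theorem schNorm_add (n : ℕ) (x y : ℕ →₀ ℝ) : schNorm n (x + y) ≤ schNorm n x + schNorm n y := by
  refine schNorm_le n _ _ (fun F hF => ?_)
  calc ∑ j ∈ F, |(x + y) j| ≤ ∑ j ∈ F, (|x j| + |y j|) :=
        Finset.sum_le_sum (fun j _ => by rw [Finsupp.add_apply]; exact abs_add_le _ _)
    _ = ∑ j ∈ F, |x j| + ∑ j ∈ F, |y j| := Finset.sum_add_distrib
    _ ≤ _ := add_le_add (le_schNorm n x F hF) (le_schNorm n y F hF)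

theorem schNorm_smul_le (n : ℕ) (c : ℝ) (x : ℕ →₀ ℝ) : schNorm n (c • x) ≤ |c| * schNorm n x := by
  refine schNorm_le n _ _ (fun F hF => ?_)
  calc ∑ j ∈ F, |(c • x) j| = |c| * ∑ j ∈ F, |x j| := by
        rw [Finset.mul_sum]
        refine Finset.sum_congr rfl (fun j _ => ?_)
        rw [Finsupp.smul_apply, smul_eq_mul, abs_mul]
    _ ≤ _ := mul_le_mul_of_nonneg_left (le_schNorm n x F hF) (abs_nonneg _)

theorem schNorm_zero (n : ℕ) : schNorm n 0 = 0 := by
  refine le_antisymm (schNorm_le n _ _ (fun F _ => by simp)) (schNorm_nonneg n _)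

theorem schNorm_neg (n : ℕ) (x : ℕ →₀ ℝ) : schNorm n (-x) = schNorm n x := by
  unfold schNorm
  simp

/-- type synonym of `ℕ →₀ ℝ` -/
def E (_n : ℕ) : Type := ℕ →₀ ℝ

noncomputable instance (n : ℕ) : AddCommGroup (E n) := inferInstanceAs (AddCommGroup (ℕ →₀ ℝ))
noncomputable instance (n : ℕ) : Module ℝ (E n) := inferInstanceAs (Module ℝ (ℕ →₀ ℝ))

noncomputable instance instS (n : ℕ) : SeminormedAddCommGroup (E n) :=
  AddGroupSeminorm.toSeminormedAddCommGroup
    { toFun := fun x => schNorm n x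
      map_zero' := schNorm_zero n
      add_le' := schNorm_add n
      neg' := schNorm_neg n }

theorem norm_def (n : ℕ) (x : E n) : ‖x‖ = schNorm n x := rfl

noncomputable instance instN (n : ℕ) : NormedSpace ℝ (E n) where
  norm_smul_le := fun c x => by
    rw [norm_def, norm_def, Real.norm_eq_abs]
    exact schNorm_smul_le n c x

theorem t_EX : S_EX := by
  intro n
  refine ⟨UniformSpace.Completion (E n), inferInstance, inferInstance, inferInstance,
    (UniformSpace.Completion.toComplₗᵢ (𝕜 := ℝ) (E := E n)).toLinearMap, ?_, ?_⟩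
  · exact (UniformSpace.Completion.denseRange_coe :
      DenseRange ((↑) : E n → UniformSpace.Completion (E n)))
  · intro x
    exact UniformSpace.Completion.norm_coe (E := E n) x

end Pool.Agent.X181.SS
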